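import Pool.Agent.H960.FV.Bas

/-!
Project FV (helper960), board task FV-PHITAIL: the tail of the coding radius (helper640).
-/

open MeasureTheory Filter Topology

namespace Pool.Agent.H640.FV

open H960FV

variable {d : ℕ} {Sg St : Type}

/-- outputs persist for all later times -/
theorem dt_mono [NeZero d] (h2 : S_cons) {G : (Z d → Sg) → (Z d → St) → St} {ρ : ℕ}
    (hG : IsLoc ρ G) {ω : Ix d → Sg} {v : Z d} {a : St} {t : ℕ} (h : Dt G ρ ω t v a) (k : ℕ) :
    Dt G ρ ω (t + k) v a := by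
  induction k with
  | zero => exact h
  | succ k ih => exact h2 d Sg St G ρ hG ω (t + k) v a ih

/-- outputs are unique -/
theorem dt_unique [NeZero d] (h2 : S_cons) (h3 : S_cftp) {G : (Z d → Sg) → (Z d → St) → St}
    {ρ : ℕ} (hG : IsLoc ρ G) {ω : Ix d → Sg} {v : Z d} {a a' : St} {t t' : ℕ}
    (h : Dt G ρ ω t v a) (h' : Dt G ρ ω t' v a') : a = a' := by
  have e1 := dt_mono h2 hG h t'
  have e2 := dt_mono h2 hG h' t
  rw [add_comm t' t] at e2
  unfold Dt at e1 e2
  obtain ⟨K, hK⟩ := h3 d Sg St G ρ hG _ _ v 0 a e1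
  obtain ⟨K', hK'⟩ := h3 d Sg St G ρ hG _ _ v 0 a' e2
  rw [← hK (max K K') (le_max_left _ _) (fun _ => a), ← hK' (max K K') (le_max_right _ _)
    (fun _ => a)]

/-- the coding reads off the outputs -/
theorem phi_eq [NeZero d] [Nonempty St] (h2 : S_cons) (h3 : S_cftp)
    {G : (Z d → Sg) → (Z d → St) → St} {ρ : ℕ} (hG : IsLoc ρ G) {x : Z d → Sg × Sg} {v : Z d}
    {a : St} {t : ℕ} (h : Dt G ρ (emb x) t v a) : phi G ρ x v = a := by
  have hex : ∃ b, ∃ t, Dt G ρ (emb x) t v b := ⟨a, t, h⟩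
  have hs : ∃ t, Dt G ρ (emb x) t v (phi G ρ x v) := Classical.epsilon_spec hex
  obtain ⟨t', ht'⟩ := hs
  exact dt_unique h2 h3 hG ht' h

/-- sets which look at finitely many coordinates are measurable -/
theorem meas_of_fin {I A : Type} [Finite A] [MeasurableSpace A] [MeasurableSingletonClass A]
    (K : Finset I) (N : Set (I → A))
    (h : ∀ x x' : I → A, (∀ k ∈ K, x k = x' k) → x ∈ N → x' ∈ N) : MeasurableSet N := by
  have e : N = (fun (x : I → A) (k : K) => x k) ⁻¹' ((fun (x : I → A) (k : K) => x k) '' N) := by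
    ext x
    simp only [Set.mem_preimage, Set.mem_image]
    constructor
    · intro hx
      exact ⟨x, hx, rfl⟩
    · rintro ⟨y, hy, hyx⟩
      exact h y x (fun k hk => congrFun hyx ⟨k, hk⟩) hy
  rw [e]
  have hm : Measurable (fun (x : I → A) (k : K) => x k) :=
    measurable_pi_lambda _ fun k => measurable_pi_apply _
  exact hm (Set.toFinite _).measurableSet

theorem phitail (h1 : S_dloc) (h2 : S_cons) (h3 : S_cftp) (h4 : S_pair) : S_phitail := by
  intro d _ Sg St _ _ _ ν _ _ _ G ρ hG hT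
  obtain ⟨C, c, hc, hC⟩ := hT
  have hd : 0 < d := Nat.pos_of_ne_zero (NeZero.ne d)
  -- the undetermined sets
  let N : ℕ → Set (Z d → Sg × Sg) := fun t => {x | ¬ ∃ a, Dt G ρ (emb x) t 0 a}
  have hloc : ∀ (t : ℕ) (x x' : Z d → Sg × Sg),
      (∀ k ∈ bx d ((4 * ρ + 1) * (t + 1)), x k = x' k) → ∀ a,
      (Dt G ρ (emb x) t 0 a ↔ Dt G ρ (emb x') t 0 a) := by
    intro t x x' hx a
    refine h1 d Sg St G ρ hG (emb x) (emb x') t 0 a ?_
    intro y hy
    rw [sub_zero] at hy
    exact ⟨congrArg Prod.fst (hx y hy), congrArg Prod.snd (hx y hy)⟩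
  have hNm : ∀ t, MeasurableSet (N t) := by
    intro t
    refine meas_of_fin (bx d ((4 * ρ + 1) * (t + 1))) (N t) ?_
    intro x x' hx hN hex
    obtain ⟨a, ha⟩ := hex
    exact hN ⟨a, (hloc t x x' hx a).2 ha⟩
  have hNe : ∀ t, (Measure.infinitePi fun _ : Z d => ν.prod ν).real (N t) =
      (Measure.infinitePi fun _ : Ix d => ν).real {ω | ¬ ∃ a, Dt G ρ ω t 0 a} := by
    intro t
    rw [← (h4 d Sg ν).measureReal_preimage (hNm t).nullMeasurableSet]
    congr 1
    ext ω
    simp only [Set.mem_preimage, N, Set.mem_setOf_eq]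
    refine not_congr (exists_congr fun a => ?_)
    refine h1 d Sg St G ρ hG _ _ t 0 a ?_
    intro y _
    exact ⟨rfl, rfl⟩
  have hC0 : 0 ≤ C := by
    have := hC 0
    have h0 : (0 : ℝ) ≤ C * Real.exp (-c * (0 : ℕ)) := le_trans measureReal_nonneg this
    simpa using h0
  have hsub : ∀ (r t : ℕ), (4 * ρ + 1) * (t + 1) * d ≤ r →
      {x : Z d → Sg × Sg | ∃ x' : Z d → Sg × Sg,
        (∀ v : Z d, ∑ i, |v i| ≤ (r : ℤ) → x' v = x v) ∧ phi G ρ x' 0 ≠ phi G ρ x 0} ⊆ N t := by
    intro r t hr x hx hex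
    obtain ⟨x', hx', hne⟩ := hx
    obtain ⟨a, ha⟩ := hex
    apply hne
    have ha' : Dt G ρ (emb x') t 0 a := by
      refine (hloc t x x' ?_ a).1 ha
      intro k hk
      refine (hx' k ?_).symm
      rw [mem_bx] at hk
      calc ∑ i, |k i| ≤ ∑ _i : Fin d, (((4 * ρ + 1) * (t + 1) : ℕ) : ℤ) :=
            Finset.sum_le_sum fun i _ => hk i
        _ = (((4 * ρ + 1) * (t + 1) * d : ℕ) : ℤ) := by
            rw [Finset.sum_const, Finset.card_univ, Fintype.card_fin, nsmul_eq_mul]
            push_cast; ring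
        _ ≤ r := by exact_mod_cast hr
    rw [phi_eq h2 h3 hG ha, phi_eq h2 h3 hG ha']
  set D : ℕ := (4 * ρ + 1) * d with hD
  have hDpos : 0 < D := Nat.mul_pos (by omega) hd
  have hDr : (0 : ℝ) < D := by exact_mod_cast hDpos
  refine ⟨C * Real.exp (2 * c) + Real.exp c, c / D, by positivity, fun r => ?_⟩
  have hexp : ∀ s : ℝ, 0 < Real.exp s := Real.exp_pos
  by_cases hr : r < D
  · refine le_trans measureReal_le_one ?_
    have h5 : (1 : ℝ) ≤ Real.exp c * Real.exp (-(c / D) * r) := by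
      rw [← Real.exp_add]
      apply Real.one_le_exp
      have hrD : (r : ℝ) ≤ D := by exact_mod_cast hr.le
      have : c / D * r ≤ c := by
        rw [div_mul_eq_mul_div, div_le_iff₀ hDr]
        exact mul_le_mul_of_nonneg_left hrD hc.le
      linarith
    have h6 : 0 ≤ C * Real.exp (2 * c) * Real.exp (-(c / D) * r) := by positivity
    linarith
  · have hrD : D ≤ r := not_lt.1 hr
    have hq : 1 ≤ r / D := (Nat.one_le_div_iff hDpos).2 hrD
    obtain ⟨t, ht⟩ : ∃ t, r / D = t + 1 := ⟨r / D - 1, by omega⟩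
    have hle : (4 * ρ + 1) * (t + 1) * d ≤ r := by
      have := Nat.div_mul_le_self r D
      rw [ht, hD] at this
      calc (4 * ρ + 1) * (t + 1) * d = (t + 1) * ((4 * ρ + 1) * d) := by ring
        _ ≤ r := this
    have hlt : r < D * (t + 2) := by
      have := Nat.lt_mul_div_succ r hDpos
      rw [ht] at this
      exact this
    have hm : (Measure.infinitePi fun _ : Z d => ν.prod ν).real
        {x : Z d → Sg × Sg | ∃ x' : Z d → Sg × Sg,
        (∀ v : Z d, ∑ i, |v i| ≤ (r : ℤ) → x' v = x v) ∧ phi G ρ x' 0 ≠ phi G ρ x 0} ≤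
        C * Real.exp (-c * t) := by
      refine le_trans (measureReal_mono (hsub r t hle)) ?_
      rw [hNe t]
      exact hC t
    refine le_trans hm ?_
    have hlt' : (r : ℝ) ≤ D * (t + 2) := by exact_mod_cast hlt.le
    have h7 : c / D * r ≤ c * (t + 2) := by
      rw [div_mul_eq_mul_div, div_le_iff₀ hDr]
      calc c * r ≤ c * (D * (t + 2)) := mul_le_mul_of_nonneg_left hlt' hc.le
        _ = c * (t + 2) * D := by ring
    have h8 : Real.exp (-c * t) ≤ Real.exp (2 * c) * Real.exp (-(c / D) * r) := by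
      rw [← Real.exp_add]
      apply Real.exp_le_exp.2
      linarith
    have h9 : C * Real.exp (-c * t) ≤ C * (Real.exp (2 * c) * Real.exp (-(c / D) * r)) :=
      mul_le_mul_of_nonneg_left h8 hC0
    have h10 : 0 < Real.exp c * Real.exp (-(c / D) * r) := by positivity
    calc C * Real.exp (-c * t) ≤ C * (Real.exp (2 * c) * Real.exp (-(c / D) * r)) := h9
      _ ≤ (C * Real.exp (2 * c) + Real.exp c) * Real.exp (-(c / D) * r) := by
        linarith

end Pool.Agent.H640.FV
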